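import Pool.Agent.H110R3.UF.Stmts

/-! The associator is unitary (task T2). -/

set_option autoImplicit false

open CategoryTheory MonoidalCategory CategoryTheory.Limits
open scoped Matrix

universe v u

namespace Pool.Agent.H211R3.UF

open Pool.Agent.H110R3.UF

section
variable {C : Type u} [Category.{v} C] [Preadditive C] [Linear ℂ C] [MonoidalCategory C]
  [MonoidalPreadditive C] [MonoidalLinear ℂ C] (K : Ctx C)

theorem coef_ortho (a b c : Fin K.n) (k : Fin (K.N a b c)) (c' : Fin K.n)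
    (k' : Fin (K.N a b c')) : K.coef c c' (K.G a b c k ≫ K.G' a b c' k') =
    if (⟨c, k⟩ : Σ c, Fin (K.N a b c)) = ⟨c', k'⟩ then 1 else 0 := by
  rw [K.ortho]
  split_ifs with h
  · rw [K.coef_dl, if_pos (congrArg Sigma.fst h)]
  · exact map_zero _

theorem tR_ne (a b c d f f' d' : Fin K.n) (k'' : Fin (K.N b c f')) (m'' : Fin (K.N a f' d))
    (k' : Fin (K.N b c f)) (m' : Fin (K.N a f d'))
    (h : (⟨f', k''⟩ : Σ c', Fin (K.N b c c')) ≠ ⟨f, k'⟩) :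
    (K.G a f' d m'' ≫ (K.S a ◁ K.G b c f' k'')) ≫ ((K.S a ◁ K.G' b c f k') ≫ K.G' a f d' m') =
      0 := by
  have h1 : K.G b c f' k'' ≫ K.G' b c f k' = 0 := by rw [K.ortho, if_neg h]
  calc (K.G a f' d m'' ≫ (K.S a ◁ K.G b c f' k'')) ≫ ((K.S a ◁ K.G' b c f k') ≫ K.G' a f d' m')
      = K.G a f' d m'' ≫ (K.S a ◁ (K.G b c f' k'' ≫ K.G' b c f k')) ≫ K.G' a f d' m' := by
        simp only [Category.assoc, MonoidalCategory.whiskerLeft_comp]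
    _ = 0 := by rw [h1]; simp

theorem tR_eq (a b c d f d' : Fin K.n) (k' : Fin (K.N b c f)) (m'' : Fin (K.N a f d))
    (m' : Fin (K.N a f d')) :
    (K.G a f d m'' ≫ (K.S a ◁ K.G b c f k')) ≫ ((K.S a ◁ K.G' b c f k') ≫ K.G' a f d' m') =
      K.G a f d m'' ≫ K.G' a f d' m' := by
  have h1 : K.G b c f k' ≫ K.G' b c f k' = 𝟙 _ := by rw [K.ortho, if_pos rfl, K.dl_self]
  calc (K.G a f d m'' ≫ (K.S a ◁ K.G b c f k')) ≫ ((K.S a ◁ K.G' b c f k') ≫ K.G' a f d' m')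
      = K.G a f d m'' ≫ (K.S a ◁ (K.G b c f k' ≫ K.G' b c f k')) ≫ K.G' a f d' m' := by
        simp only [Category.assoc, MonoidalCategory.whiskerLeft_comp]
    _ = _ := by rw [h1]; simp

theorem tL_ne (a b c d e e' d' : Fin K.n) (k0 : Fin (K.N a b e')) (m0 : Fin (K.N e' c d'))
    (k : Fin (K.N a b e)) (m : Fin (K.N e c d))
    (h : (⟨e', k0⟩ : Σ c', Fin (K.N a b c')) ≠ ⟨e, k⟩) :
    (K.G e' c d' m0 ≫ (K.G a b e' k0 ▷ K.S c)) ≫ ((K.G' a b e k ▷ K.S c) ≫ K.G' e c d m) =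
      0 := by
  have h1 : K.G a b e' k0 ≫ K.G' a b e k = 0 := by rw [K.ortho, if_neg h]
  calc (K.G e' c d' m0 ≫ (K.G a b e' k0 ▷ K.S c)) ≫ ((K.G' a b e k ▷ K.S c) ≫ K.G' e c d m)
      = K.G e' c d' m0 ≫ ((K.G a b e' k0 ≫ K.G' a b e k) ▷ K.S c) ≫ K.G' e c d m := by
        simp only [Category.assoc, MonoidalCategory.comp_whiskerRight]
    _ = 0 := by rw [h1]; simp

theorem tL_eq (a b c d e d' : Fin K.n) (k : Fin (K.N a b e)) (m0 : Fin (K.N e c d'))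
    (m : Fin (K.N e c d)) :
    (K.G e c d' m0 ≫ (K.G a b e k ▷ K.S c)) ≫ ((K.G' a b e k ▷ K.S c) ≫ K.G' e c d m) =
      K.G e c d' m0 ≫ K.G' e c d m := by
  have h1 : K.G a b e k ≫ K.G' a b e k = 𝟙 _ := by rw [K.ortho, if_pos rfl, K.dl_self]
  calc (K.G e c d' m0 ≫ (K.G a b e k ▷ K.S c)) ≫ ((K.G' a b e k ▷ K.S c) ≫ K.G' e c d m)
      = K.G e c d' m0 ≫ ((K.G a b e k ≫ K.G' a b e k) ▷ K.S c) ≫ K.G' e c d m := by
        simp only [Category.assoc, MonoidalCategory.comp_whiskerRight]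
    _ = _ := by rw [h1]; simp

/-- the coefficient of the associator -/
theorem coreR (a b c d e f d' : Fin K.n) (k : Fin (K.N a b e)) (m : Fin (K.N e c d))
    (k' : Fin (K.N b c f)) (m' : Fin (K.N a f d')) :
    K.coef d d' ((K.G e c d m ≫ (K.G a b e k ▷ K.S c) ≫ (α_ _ _ _).hom) ≫
      ((K.S a ◁ K.G' b c f k') ≫ K.G' a f d' m')) =
    ∑ m'' : Fin (K.N a f d), if (⟨d, m''⟩ : Σ c, Fin (K.N a f c)) = ⟨d', m'⟩ then
      K.Fm a b c d e f k m k' m'' else 0 := by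
  rw [K.F_hom]
  simp only [Preadditive.sum_comp, Linear.smul_comp, map_sum, map_smul, smul_eq_mul]
  rw [Finset.sum_eq_single f]
  · rw [Finset.sum_eq_single k']
    · refine Finset.sum_congr rfl fun m'' _ => ?_
      rw [tR_eq, coef_ortho]
      split_ifs <;> simp
    · intro k'' _ hk
      refine Finset.sum_eq_zero fun m'' _ => ?_
      rw [tR_ne, map_zero, mul_zero]
      intro h
      exact hk (eq_of_heq (Sigma.mk.inj_iff.1 h).2)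
    · intro h
      exact absurd (Finset.mem_univ _) h
  · intro f' _ hf
    refine Finset.sum_eq_zero fun k'' _ => Finset.sum_eq_zero fun m'' _ => ?_
    rw [tR_ne, map_zero, mul_zero]
    intro h
    exact hf (Sigma.mk.inj_iff.1 h).1
  · intro h
    exact absurd (Finset.mem_univ _) h

/-- the coefficient of the inverse of the associator -/
theorem coreL (a b c d e f d' : Fin K.n) (k : Fin (K.N a b e)) (m : Fin (K.N e c d))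
    (k' : Fin (K.N b c f)) (m' : Fin (K.N a f d')) :
    K.coef d' d ((K.G a f d' m' ≫ (K.S a ◁ K.G b c f k') ≫ (α_ _ _ _).inv) ≫
      ((K.G' a b e k ▷ K.S c) ≫ K.G' e c d m)) =
    ∑ m0 : Fin (K.N e c d'), if (⟨d', m0⟩ : Σ c', Fin (K.N e c c')) = ⟨d, m⟩ then
      star (K.Fm a b c d' e f k m0 k' m') else 0 := by
  rw [K.F_inv]
  simp only [Preadditive.sum_comp, Linear.smul_comp, map_sum, map_smul, smul_eq_mul]
  rw [Finset.sum_eq_single e]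
  · rw [Finset.sum_eq_single k]
    · refine Finset.sum_congr rfl fun m0 _ => ?_
      rw [tL_eq, coef_ortho]
      split_ifs <;> simp
    · intro k0 _ hk
      refine Finset.sum_eq_zero fun m0 _ => ?_
      rw [tL_ne, map_zero, mul_zero]
      intro h
      exact hk (eq_of_heq (Sigma.mk.inj_iff.1 h).2)
    · intro h
      exact absurd (Finset.mem_univ _) h
  · intro e' _ he
    refine Finset.sum_eq_zero fun k0 _ => Finset.sum_eq_zero fun m0 _ => ?_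
    rw [tL_ne, map_zero, mul_zero]
    intro h
    exact he (Sigma.mk.inj_iff.1 h).1
  · intro h
    exact absurd (Finset.mem_univ _) h

theorem core (a b c d e f d' : Fin K.n) (k : Fin (K.N a b e)) (m : Fin (K.N e c d))
    (k' : Fin (K.N b c f)) (m' : Fin (K.N a f d')) :
    K.coef d' d ((K.G a f d' m' ≫ (K.S a ◁ K.G b c f k') ≫ (α_ _ _ _).inv) ≫
      ((K.G' a b e k ▷ K.S c) ≫ K.G' e c d m)) =
    star (K.coef d d' ((K.G e c d m ≫ (K.G a b e k ▷ K.S c) ≫ (α_ _ _ _).hom) ≫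
      ((K.S a ◁ K.G' b c f k') ≫ K.G' a f d' m'))) := by
  rw [coreL, coreR]
  by_cases h : d = d'
  · subst h
    have h1 : ∀ (m'' : Fin (K.N a f d)),
        ((⟨d, m''⟩ : Σ c, Fin (K.N a f c)) = ⟨d, m'⟩) ↔ m'' = m' := fun m'' =>
      ⟨fun h => eq_of_heq (Sigma.mk.inj_iff.1 h).2, fun h => by rw [h]⟩
    have h2 : ∀ (m0 : Fin (K.N e c d)),
        ((⟨d, m0⟩ : Σ c', Fin (K.N e c c')) = ⟨d, m⟩) ↔ m0 = m := fun m0 =>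
      ⟨fun h => eq_of_heq (Sigma.mk.inj_iff.1 h).2, fun h => by rw [h]⟩
    simp only [h1, h2, Finset.sum_ite_eq', Finset.mem_univ, if_true]
  · have h1 : ∀ (m'' : Fin (K.N a f d)),
        (⟨d, m''⟩ : Σ c, Fin (K.N a f c)) ≠ ⟨d', m'⟩ := fun m'' h' =>
      h (Sigma.mk.inj_iff.1 h').1
    have h2 : ∀ (m0 : Fin (K.N e c d')),
        (⟨d', m0⟩ : Σ c', Fin (K.N e c c')) ≠ ⟨d, m⟩ := fun m0 h' =>
      h (Sigma.mk.inj_iff.1 h').1.symm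
    simp only [if_neg (h1 _), if_neg (h2 _), Finset.sum_const_zero, star_zero]

/-- moving the inclusions and projections through the inverse associator -/
theorem natL {A1 A2 A3 X1 X2 X3 B1 B2 B3 P F E Q : C} (g1 : P ⟶ A1 ⊗ F) (g2 : F ⟶ A2 ⊗ A3)
    (i1 : A1 ⟶ X1) (i2 : A2 ⟶ X2) (i3 : A3 ⟶ X3) (p1 : X1 ⟶ B1) (p2 : X2 ⟶ B2) (p3 : X3 ⟶ B3)
    (h1 : B1 ⊗ B2 ⟶ E) (h2 : E ⊗ B3 ⟶ Q) :
    (g1 ≫ (i1 ⊗ₘ (g2 ≫ (i2 ⊗ₘ i3)))) ≫ (α_ X1 X2 X3).inv ≫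
      ((((p1 ⊗ₘ p2) ≫ h1) ⊗ₘ p3) ≫ h2) =
    (g1 ≫ (A1 ◁ g2) ≫ (α_ A1 A2 A3).inv) ≫
      (((i1 ≫ p1) ⊗ₘ (i2 ≫ p2)) ⊗ₘ (i3 ≫ p3)) ≫ ((h1 ▷ B3) ≫ h2) := by
  have e1 : (i1 ⊗ₘ (g2 ≫ (i2 ⊗ₘ i3))) = (A1 ◁ g2) ≫ (i1 ⊗ₘ (i2 ⊗ₘ i3)) := by
    rw [← id_tensorHom, tensorHom_comp_tensorHom, Category.id_comp]
  have e2 : (((p1 ⊗ₘ p2) ≫ h1) ⊗ₘ p3) = ((p1 ⊗ₘ p2) ⊗ₘ p3) ≫ (h1 ▷ B3) := by
    rw [← tensorHom_id, tensorHom_comp_tensorHom, Category.comp_id]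
  have e3 : (((i1 ≫ p1) ⊗ₘ (i2 ≫ p2)) ⊗ₘ (i3 ≫ p3)) =
      ((i1 ⊗ₘ i2) ⊗ₘ i3) ≫ ((p1 ⊗ₘ p2) ⊗ₘ p3) := by
    rw [tensorHom_comp_tensorHom, tensorHom_comp_tensorHom]
  rw [e1, e2, e3]
  simp only [Category.assoc]
  rw [associator_inv_naturality_assoc]

theorem natR {A1 A2 A3 X1 X2 X3 B1 B2 B3 P F E Q : C} (g1 : P ⟶ F ⊗ A3) (g2 : F ⟶ A1 ⊗ A2)
    (i1 : A1 ⟶ X1) (i2 : A2 ⟶ X2) (i3 : A3 ⟶ X3) (p1 : X1 ⟶ B1) (p2 : X2 ⟶ B2) (p3 : X3 ⟶ B3)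
    (h1 : B2 ⊗ B3 ⟶ E) (h2 : B1 ⊗ E ⟶ Q) :
    (g1 ≫ ((g2 ≫ (i1 ⊗ₘ i2)) ⊗ₘ i3)) ≫ (α_ X1 X2 X3).hom ≫
      ((p1 ⊗ₘ ((p2 ⊗ₘ p3) ≫ h1)) ≫ h2) =
    (g1 ≫ (g2 ▷ A3) ≫ (α_ A1 A2 A3).hom) ≫
      ((i1 ≫ p1) ⊗ₘ ((i2 ≫ p2) ⊗ₘ (i3 ≫ p3))) ≫ ((B1 ◁ h1) ≫ h2) := by
  have e1 : ((g2 ≫ (i1 ⊗ₘ i2)) ⊗ₘ i3) = (g2 ▷ A3) ≫ ((i1 ⊗ₘ i2) ⊗ₘ i3) := by
    rw [← tensorHom_id, tensorHom_comp_tensorHom, Category.id_comp]
  have e2 : (p1 ⊗ₘ ((p2 ⊗ₘ p3) ≫ h1)) = (p1 ⊗ₘ (p2 ⊗ₘ p3)) ≫ (B1 ◁ h1) := by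
    rw [← id_tensorHom, tensorHom_comp_tensorHom, Category.comp_id]
  have e3 : ((i1 ≫ p1) ⊗ₘ ((i2 ≫ p2) ⊗ₘ (i3 ≫ p3))) =
      (i1 ⊗ₘ (i2 ⊗ₘ i3)) ≫ (p1 ⊗ₘ (p2 ⊗ₘ p3)) := by
    rw [tensorHom_comp_tensorHom, tensorHom_comp_tensorHom]
  rw [e1, e2, e3]
  simp only [Category.assoc]
  rw [associator_naturality_assoc]

end

theorem taskT2 : TaskT2.{v, u} := by
  intro C _ _ _ _ _ _ K X Y Z hX hY hZ
  ext ⟨⟨i', ⟨⟨j', l'⟩, f, k'⟩⟩, d', m'⟩ ⟨⟨⟨⟨i, j⟩, e, k⟩, l⟩, d, m⟩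
  change K.coef d' d ((K.G (X.s i') f d' m' ≫ (X.inc i' ⊗ₘ
      (K.G (Y.s j') (Z.s l') f k' ≫ (Y.inc j' ⊗ₘ Z.inc l')))) ≫ (α_ X.X Y.X Z.X).inv ≫
      ((((X.prj i ⊗ₘ Y.prj j) ≫ K.G' (X.s i) (Y.s j) e k) ⊗ₘ Z.prj l) ≫ K.G' e (Z.s l) d m)) =
    star (K.coef d d' ((K.G e (Z.s l) d m ≫ ((K.G (X.s i) (Y.s j) e k ≫
      (X.inc i ⊗ₘ Y.inc j)) ⊗ₘ Z.inc l)) ≫ (α_ X.X Y.X Z.X).hom ≫
      ((X.prj i' ⊗ₘ ((Y.prj j' ⊗ₘ Z.prj l') ≫ K.G' (Y.s j') (Z.s l') f k')) ≫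
        K.G' (X.s i') f d' m')))
  rw [natL, natR]
  by_cases hi : i' = i
  · subst hi
    by_cases hj : j' = j
    · subst hj
      by_cases hl : l' = l
      · subst hl
        have e1 : X.inc i' ≫ X.prj i' = 𝟙 _ := by rw [hX.ortho, if_pos rfl, K.dl_self]
        have e2 : Y.inc j' ≫ Y.prj j' = 𝟙 _ := by rw [hY.ortho, if_pos rfl, K.dl_self]
        have e3 : Z.inc l' ≫ Z.prj l' = 𝟙 _ := by rw [hZ.ortho, if_pos rfl, K.dl_self]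
        rw [e1, e2, e3]
        simp only [id_tensorHom_id, Category.id_comp]
        exact core K _ _ _ _ _ _ _ _ _ _ _
      · have e1 : Z.inc l' ≫ Z.prj l = 0 := by rw [hZ.ortho, if_neg hl]
        have e2 : Z.inc l ≫ Z.prj l' = 0 := by rw [hZ.ortho, if_neg (Ne.symm hl)]
        rw [e1, e2]
        simp
    · have e1 : Y.inc j' ≫ Y.prj j = 0 := by rw [hY.ortho, if_neg hj]
      have e2 : Y.inc j ≫ Y.prj j' = 0 := by rw [hY.ortho, if_neg (Ne.symm hj)]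
      rw [e1, e2]
      simp
  · have e1 : X.inc i' ≫ X.prj i = 0 := by rw [hX.ortho, if_neg hi]
    have e2 : X.inc i ≫ X.prj i' = 0 := by rw [hX.ortho, if_neg (Ne.symm hi)]
    rw [e1, e2]
    simp

end Pool.Agent.H211R3.UF
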